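import Mathlib

set_option autoImplicit false

namespace Pool.Agent.H.MP_a3b474_co

/-- An adaptive strategy for `N` coins: name a coin, or weigh `L` against `R` on scale `s` and go
on with `l`, `r`, `b` after the outcomes left lighter, right lighter, balance. -/
inductive Strat (N : ℕ) : Type
  | name (c : Fin N) : Strat N
  | weigh (s : Fin 3) (L R : Finset (Fin N)) (l r b : Strat N) : Strat N

variable {N : ℕ}

/-- every weighing uses two disjoint pans of equal size -/
def Valid : Strat N → Prop
  | .name _ => True
  | .weigh _ L R l r b => Disjoint L R ∧ L.card = R.card ∧ Valid l ∧ Valid r ∧ Valid b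

/-- the worst-case number of weighings -/
def depth : Strat N → ℕ
  | .name _ => 0
  | .weigh _ _ _ l r b => max (depth l) (max (depth r) (depth b)) + 1

/-- the strategy names the fake coin `c` when scale `k` is broken, whatever that scale reports -/
def Wins (c : Fin N) (k : Fin 3) : Strat N → Prop
  | .name g => g = c
  | .weigh s L R l r b => if s = k then Wins c k l ∧ Wins c k r ∧ Wins c k b else
      if c ∈ L then Wins c k l else if c ∈ R then Wins c k r else Wins c k b

/-- least worst-case number of weighings of a successful strategy for `3 ^ (2 * n)` coins -/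
noncomputable def w (n : ℕ) : ℕ :=
  sInf {q | ∃ t : Strat (3 ^ (2 * n)), Valid t ∧ depth t ≤ q ∧ ∀ c k, Wins c k t}

/-- the counting bound -/
noncomputable def L (n : ℕ) : ℕ := sInf {q | 3 ^ (2 * n) * (2 * q + 1) ≤ 3 ^ q}

end Pool.Agent.H.MP_a3b474_co
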