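import Mathlib
import Pool.Agent.H.MP_a3b474_co.Defs

set_option autoImplicit false

namespace Pool.Agent.H.MP_a3b474_co

open Finset

variable {N : ℕ}

def Win (q : ℕ) (S : Fin N → Fin 3 → Prop) : Prop :=
  ∃ t : Strat N, Valid t ∧ depth t ≤ q ∧ ∀ c k, S c k → Wins c k t

lemma Win.mono {q q' : ℕ} {S S' : Fin N → Fin 3 → Prop} (h : Win q S) (hq : q ≤ q')
    (hS : ∀ c k, S' c k → S c k) : Win q' S' :=
  let ⟨t, h1, h2, h3⟩ := h
  ⟨t, h1, h2.trans hq, fun c k h => h3 c k (hS c k h)⟩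

lemma step {q : ℕ} {S : Fin N → Fin 3 → Prop} (s : Fin 3) (A B : Finset (Fin N))
    (hd : Disjoint A B) (hc : #A = #B) (h1 : Win q fun c k => S c k ∧ (s = k ∨ c ∈ A))
    (h2 : Win q fun c k => S c k ∧ (s = k ∨ c ∈ B))
    (h3 : Win q fun c k => S c k ∧ (s = k ∨ c ∉ A ∧ c ∉ B)) : Win (q + 1) S := by
  obtain ⟨l, l1, l2, l3⟩ := h1
  obtain ⟨r, r1, r2, r3⟩ := h2
  obtain ⟨b, b1, b2, b3⟩ := h3
  refine ⟨.weigh s A B l r b, ⟨hd, hc, l1, r1, b1⟩, by simp [depth, l2, r2, b2], fun c k h => ?_⟩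
  rw [Wins]
  split_ifs with e1 e2 e3
  exacts [⟨l3 c k ⟨h, .inl e1⟩, r3 c k ⟨h, .inl e1⟩, b3 c k ⟨h, .inl e1⟩⟩, l3 c k ⟨h, .inr e2⟩,
    r3 c k ⟨h, .inr e3⟩, b3 c k ⟨h, .inr ⟨e2, e3⟩⟩]

lemma two (T : Finset (Fin N)) (a b : ℕ) (h : a + b ≤ #T) :
    ∃ A B, A ⊆ T ∧ B ⊆ T ∧ Disjoint A B ∧ #A = a ∧ #B = b ∧ #(T \ (A ∪ B)) = #T - (a + b) := by
  obtain ⟨A, h1, rfl⟩ := exists_subset_card_eq (s := T) (n := a) (by omega)
  obtain ⟨B, h2, rfl⟩ := exists_subset_card_eq (s := T \ A) (n := b)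
    (by rw [card_sdiff_of_subset h1]; omega)
  have d : Disjoint A B := disjoint_of_subset_right h2 disjoint_sdiff
  have h3 := h2.trans sdiff_subset
  exact ⟨A, B, h1, h3, d, rfl, rfl, by
    rw [card_sdiff_of_subset (union_subset h1 h3), card_union_of_disjoint d]⟩

lemma zero [NeZero N] (T : Finset (Fin N)) (h : #T ≤ 1) : Win 0 fun c _ => c ∈ T := by
  obtain ⟨x, hx⟩ := card_le_one_iff_subset_singleton.1 h
  exact ⟨.name x, trivial, le_rfl, fun c _ hc => (mem_singleton.1 (hx hc)).symm⟩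

lemma good [NeZero N] (s : Fin 3) (q : ℕ) : ∀ T : Finset (Fin N), #T ≤ 3 ^ q →
    Win q fun c k => c ∈ T ∧ s ≠ k := by
  induction q with
  | zero => exact fun T h => (zero T h).mono le_rfl fun _ _ h => h.1
  | succ q ih =>
    intro T h
    obtain ⟨A, B, -, -, d, a, b, c⟩ := two T ((#T + 1) / 3) ((#T + 1) / 3) (by omega)
    rw [pow_succ] at h
    exact step s A B d (a.trans b.symm) ((ih A (by omega)).mono le_rfl (by tauto))
      ((ih B (by omega)).mono le_rfl (by tauto))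
      ((ih (T \ (A ∪ B)) (by omega)).mono le_rfl (by simp only [mem_sdiff, mem_union]; tauto))

lemma base [NeZero N] (T : Finset (Fin N)) (h : #T ≤ 3) : Win 3 fun c _ => c ∈ T := by
  obtain ⟨A, B, -, -, d, a, b, c⟩ := two T ((#T + 1) / 3) ((#T + 1) / 3) (by omega)
  have g := good 2 1 T h
  have e : ∀ k : Fin 3, (0 = k → 2 ≠ k) ∧ (1 = k → 2 ≠ k) ∧ (0 = k → 1 ≠ k) := by decide
  rw [disjoint_left] at d
  refine step 0 A B (disjoint_left.2 d) (a.trans b.symm) ?_ ?_ ?_ <;>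
    refine step 1 A B (disjoint_left.2 d) (a.trans b.symm) ?_ ?_ ?_
  all_goals first
    | exact g.mono le_rfl fun c k h => ⟨h.1.1, by have := e k; have := @d c; tauto⟩
    | skip
  · exact (zero A (by omega)).mono (by omega) fun c k h => by have := e k; tauto
  · exact (zero B (by omega)).mono (by omega) fun c k h => by have := e k; tauto
  · exact (zero (T \ (A ∪ B)) (by omega)).mono (by omega) fun c k h => by
      have := e k
      simp only [mem_sdiff, mem_union]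
      tauto

lemma good2 [NeZero N] {q : ℕ} {s i j : Fin 3} (hi : s ≠ i) (hj : s ≠ j) (A B : Finset (Fin N))
    (h : #A + #B ≤ 3 ^ q) : Win q fun c k => c ∈ A ∧ k = i ∨ c ∈ B ∧ k = j :=
  (good s q (A ∪ B) ((card_union_le _ _).trans h)).mono le_rfl fun c k h => by
    rcases h with ⟨h, rfl⟩ | ⟨h, rfl⟩ <;> simp [*]

lemma pans (A Z : Finset (Fin N)) (hd : Disjoint A Z) (a1 a2 z1 z2 : ℕ) (ha : a1 + a2 ≤ #A)
    (hz : z1 + z2 ≤ #Z) (he : a1 + z1 = a2 + z2) : ∃ A1 A2 Z1 Z2, A1 ⊆ A ∧ A2 ⊆ A ∧ Z1 ⊆ Z ∧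
      Z2 ⊆ Z ∧ #A1 = a1 ∧ #A2 = a2 ∧ #Z1 = z1 ∧ #Z2 = z2 ∧ #(A \ (A1 ∪ A2)) = #A - (a1 + a2) ∧
      #(Z \ (Z1 ∪ Z2)) = #Z - (z1 + z2) ∧ Disjoint (A1 ∪ Z1) (A2 ∪ Z2) ∧
      #(A1 ∪ Z1) = #(A2 ∪ Z2) := by
  obtain ⟨A1, A2, b1, b2, b3, b4, b5, b6⟩ := two A a1 a2 ha
  obtain ⟨Z1, Z2, c1, c2, c3, c4, c5, c6⟩ := two Z z1 z2 hz
  refine ⟨A1, A2, Z1, Z2, b1, b2, c1, c2, b4, b5, c4, c5, b6, c6, ?_, ?_⟩
  · simp only [disjoint_union_left, disjoint_union_right]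
    exact ⟨⟨b3, (hd.mono b2 c1).symm⟩, hd.mono b1 c2, c3⟩
  · rw [card_union_of_disjoint (hd.mono b1 c1), card_union_of_disjoint (hd.mono b2 c2)]
    omega

lemma term [NeZero N] {q : ℕ} {i j k : Fin 3} (ij : i ≠ j) (ik : i ≠ k) (jk : j ≠ k)
    (A F Z : Finset (Fin N)) (d1 : Disjoint A Z) (d2 : Disjoint A F) (d3 : Disjoint F Z)
    (h0 : 1 ≤ #A) (h : #Z + 2 * #A ≤ 2 * 3 ^ q) (h' : #A + #F ≤ 3 ^ q) :
    Win (q + 1) fun c s => c ∈ A ∧ s = k ∨ c ∈ F ∧ s = i ∨ c ∈ Z ∧ s = j := by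
  obtain ⟨A1, A2, Z1, Z2, b1, b2, c1, c2, b4, b5, c4, c5, -, c6, d, e⟩ :=
    pans A Z d1 (#Z % 2) 0 (#Z / 2) (#Z - #Z / 2) (by omega) (by omega) (by omega)
  have c7 : Z \ (Z1 ∪ Z2) = ∅ := card_eq_zero.1 (by omega)
  rw [disjoint_left] at d1 d2 d3
  refine step k _ _ d e ((good2 ik ij A Z1 (by omega)).mono le_rfl fun c s h => ?_)
    ((good2 ik ij A Z2 (by omega)).mono le_rfl fun c s h => ?_)
    ((good2 jk ij.symm A F (by omega)).mono le_rfl fun c s h => ?_)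
  all_goals
    have := Finset.ext_iff.1 c7 c
    have := @b1 c
    have := @b2 c
    have := @c1 c
    have := @c2 c
    have := @d1 c
    have := @d2 c
    have := @d3 c
    simp only [mem_union, mem_sdiff, notMem_empty] at *
    grind

lemma reg1 {Q D R : ℕ} {i j k : Fin 3} (ij : i ≠ j) (ik : i ≠ k) (jk : j ≠ k)
    (A F Z : Finset (Fin N)) (d1 : Disjoint A Z) (d2 : Disjoint A F) (d3 : Disjoint F Z)
    (a0 : 0 < #A) (hI : D * #A + #F + #Z + 3 * D ≤ 3 * R)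
    (key : ∀ A1 Z1 : Finset (Fin N), A1 ⊆ A → Disjoint A Z1 → D * #A1 + #Z1 ≤ R →
      ∀ i j, i ≠ j → i ≠ k → j ≠ k →
      Win Q fun c s => c ∈ A1 ∨ c ∈ A \ A1 ∧ s = k ∨ c ∈ Z1 ∧ s = j)
    (hc : #Z + 2 * D ≤ 2 * R ∧ #F + D ≤ R) :
    Win (Q + 1) fun c s => c ∈ A ∨ c ∈ F ∧ s = i ∨ c ∈ Z ∧ s = j := by
  obtain ⟨m, m1, m2, m3, m4⟩ : ∃ m, m ≤ #A ∧ m % 2 = #Z % 2 ∧ D * (m + 1) + #Z ≤ 2 * R ∧
      D * (#A - m) + #F ≤ R := by
    obtain ⟨m, m1, m2, m3, m4⟩ : ∃ m, 1 ≤ m ∧ m ≤ #A ∧ D * (m + 1) + #Z ≤ 2 * R ∧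
        (m = #A ∨ 2 * R < D * (m + 2) + #Z) := by
      refine ⟨Nat.findGreatest (fun m => D * (m + 1) + #Z ≤ 2 * R) #A,
        Nat.le_findGreatest a0 (by omega), Nat.findGreatest_le _,
        Nat.findGreatest_spec (P := fun m => D * (m + 1) + #Z ≤ 2 * R) a0 (by omega), ?_⟩
      refine (Nat.findGreatest_le _).eq_or_lt.imp_right fun h => ?_
      exact not_le.1 (Nat.findGreatest_is_greatest (P := fun m => D * (m + 1) + #Z ≤ 2 * R)
        (Nat.lt_succ_self _) h)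
    obtain ⟨x, hx⟩ := Nat.exists_eq_add_of_le m2
    by_cases hp : m % 2 = #Z % 2
    · refine ⟨m, m2, hp, m3, ?_⟩
      rw [hx, Nat.add_sub_cancel_left]
      rcases m4 with m4 | m4
      · rw [show x = 0 by omega]; omega
      · rw [hx] at hI; nlinarith
    · obtain ⟨y, rfl⟩ : ∃ y, m = y + 1 := ⟨m - 1, by omega⟩
      refine ⟨y, by omega, by omega, by nlinarith, ?_⟩
      rw [show #A - y = x + 1 by omega]
      rcases m4 with m4 | m4
      · rw [show x = 0 by omega]; omega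
      · rw [hx] at hI; nlinarith
  obtain ⟨A1, A2, Z1, Z2, b1, b2, c1, c2, b4, b5, c4, c5, b6, c6, d, e⟩ :=
    pans A Z d1 (m / 2) (m - m / 2) (#Z - #Z / 2) (#Z / 2) (by omega) (by omega) (by omega)
  have c7 : Z \ (Z1 ∪ Z2) = ∅ := card_eq_zero.1 (by omega)
  have u1 : D * (2 * #A2) ≤ D * (m + 1) := Nat.mul_le_mul_left _ (by omega)
  have u2 : D * (2 * #A1) ≤ D * (m + 1) := Nat.mul_le_mul_left _ (by omega)
  rw [mul_left_comm] at u1 u2
  have k1 := key A1 Z1 b1 (d1.mono_right c1) (by omega) i j ij ik jk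
  have k2 := key A2 Z2 b2 (d1.mono_right c2) (by omega) i j ij ik jk
  have k3 := key (A \ (A1 ∪ A2)) F sdiff_subset d2
    (by rw [b6, show m / 2 + (m - m / 2) = m by omega]; exact m4) j i ij.symm jk ik
  rw [disjoint_left] at d1 d2 d3
  refine step k _ _ d e (k1.mono le_rfl fun c s h => ?_) (k2.mono le_rfl fun c s h => ?_)
    (k3.mono le_rfl fun c s h => ?_)
  all_goals
    have := Finset.ext_iff.1 c7 c
    have := @b1 c
    have := @b2 c
    have := @c1 c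
    have := @c2 c
    have := @d1 c
    have := @d2 c
    have := @d3 c
    simp only [mem_union, mem_sdiff, notMem_empty] at *
    grind

theorem main [NeZero N] (q : ℕ) : ∀ (i j k : Fin 3), i ≠ j → i ≠ k → j ≠ k →
    ∀ A F Z : Finset (Fin N), Disjoint A Z → Disjoint A F → Disjoint F Z →
    2 * ((2 * q + 1) * #A + #F + #Z) ≤ 3 * 3 ^ q + 6 * q + 3 →
    Win (q + 3) fun c s => c ∈ A ∨ c ∈ F ∧ s = i ∨ c ∈ Z ∧ s = j := by
  induction q with
  | zero =>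
    intro i j k _ _ _ A F Z _ _ _ h
    refine (base (A ∪ F ∪ Z) ?_).mono le_rfl fun c s h => by simp only [mem_union]; tauto
    have := card_union_le (A ∪ F) Z
    have := card_union_le A F
    omega
  | succ q ih =>
    intro i j k ij ik jk A F Z d1 d2 d3 h
    wlog hle : #F ≤ #Z generalizing i j F Z
    · exact (this j i ij.symm jk ik Z F d2 d1 d3.symm (by omega) (by omega)).mono le_rfl
        fun c s h => by tauto
    have p1 : q + 1 ≤ 3 ^ q := Nat.lt_pow_self (by omega)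
    rcases Nat.eq_zero_or_pos #A with a0 | a0
    · refine (good2 (q := q + 1 + 3) ik.symm jk.symm F Z (by rw [pow_add _ _ 3]; omega)).mono le_rfl fun c s h => ?_
      simpa [card_eq_zero.1 a0] using h
    obtain ⟨R, hR⟩ : ∃ R, 2 * R + 2 * #A = 3 * 3 ^ q + 6 * q + 3 := by
      have : 3 ^ q % 2 = 1 := by simp [Nat.pow_mod]
      have : 6 * #A ≤ 2 * ((2 * (q + 1) + 1) * #A) := by nlinarith [Nat.zero_le (q * #A)]
      exact ⟨(3 * 3 ^ q + 6 * q + 3) / 2 - #A, by omega⟩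
    have hI : 2 * q * #A + #F + #Z + 3 * (2 * q) ≤ 3 * R := by nlinarith [pow_succ 3 q]
    have key : ∀ A1 Z1 : Finset (Fin N), A1 ⊆ A → Disjoint A Z1 → 2 * q * #A1 + #Z1 ≤ R →
        ∀ i j, i ≠ j → i ≠ k → j ≠ k →
        Win (q + 3) fun c s => c ∈ A1 ∨ c ∈ A \ A1 ∧ s = k ∨ c ∈ Z1 ∧ s = j := by
      intro A1 Z1 h1 h2 h3 i j ij ik jk
      refine ih k j i jk.symm ik.symm ij.symm _ _ _ (h2.mono_left h1) disjoint_sdiff
        (h2.mono_left sdiff_subset) ?_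
      have := card_sdiff_add_card_eq_card h1
      nlinarith
    generalize 2 * q = D at hI key
    by_cases hc : #Z + 2 * D ≤ 2 * R ∧ #F + D ≤ R
    · exact reg1 ij ik jk A F Z d1 d2 d3 a0 hI key hc
    · have u0 : D ≤ D * #A := Nat.le_mul_of_pos_right _ a0
      obtain ⟨A1, A2, Z1, Z2, b1, b2, c1, c2, b4, b5, c4, c5, b6, c6, d, e⟩ :=
        pans A Z d1 (#A / 2) (#A - #A / 2) (#A % 2) 0 (by omega) (by omega) (by omega)
      have c7 : A \ (A1 ∪ A2) = ∅ := card_eq_zero.1 (by omega)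
      have u1 : D * #A2 ≤ D * #A := Nat.mul_le_mul_left _ (by omega)
      have u2 : D * #A1 ≤ D * #A := Nat.mul_le_mul_left _ (by omega)
      have k1 := key A1 Z1 b1 (d1.mono_right c1) (by omega) i j ij ik jk
      have k2 := key A2 Z2 b2 (d1.mono_right c2) (by omega) i j ij ik jk
      have k4 : #Z + 2 * #A + 2 * #F ≤ 2 * 3 ^ (q + 2) := by
        nlinarith [Nat.zero_le (q * #A), pow_succ 3 q, pow_add 3 q 2]
      have k3 := term (q := q + 2) ij ik jk A F Z d1 d2 d3 a0 (by omega) (by omega)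
      rw [disjoint_left] at d1 d2 d3
      refine step k _ _ d e (k1.mono le_rfl fun c s h => ?_) (k2.mono le_rfl fun c s h => ?_)
        (k3.mono le_rfl fun c s h => ?_)
      all_goals
        have := Finset.ext_iff.1 c7 c
        have := @b1 c
        have := @b2 c
        have := @c1 c
        have := @c2 c
        have := @d1 c
        have := @d2 c
        have := @d3 c
        simp only [mem_union, mem_sdiff, notMem_empty] at *
        grind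

end Pool.Agent.H.MP_a3b474_co
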