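import Mathlib
import Pool.Agent.H.MP_a3b474_co.Main

set_option autoImplicit false

namespace Pool.Agent.H.MP_a3b474_co

open Finset

variable {N : ℕ}

lemma lower (t : Strat N) : ∀ q, depth t ≤ q →
    ∀ A B : Finset (Fin N), (∀ c ∈ A, ∀ k, Wins c k t) → (∀ c ∈ B, ∃ k, Wins c k t) → A ⊆ B →
      2 * q * #A + #B ≤ 3 ^ q := by
  classical
  induction t with
  | name g =>
    intro q _ A B _ hB hAB
    have h1 : #B ≤ 1 := card_le_one.2 fun c hc d hd =>
      Eq.trans (hB c hc).choose_spec.symm (hB d hd).choose_spec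
    have h2 := card_le_card hAB
    have h3 : ∀ q, 2 * q + 1 ≤ 3 ^ q := fun q => by
      induction q with
      | zero => rfl
      | succ q ih => omega
    have := h3 q
    nlinarith [Nat.mul_le_mul_left (2 * q) (h2.trans h1)]
  | weigh s L R l r b il ir ib =>
    intro q hq A B hA hB hAB
    obtain ⟨q, rfl⟩ : ∃ p, q = p + 1 := ⟨q - 1, by rw [depth] at hq; omega⟩
    rw [depth] at hq
    have f : ∀ t : Strat N, ∑ c ∈ B, (if ∀ k, Wins c k t then 2 * q else 0) +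
        ∑ c ∈ B, (if ∃ k, Wins c k t then 1 else 0) =
        2 * q * #(B.filter fun c => ∀ k, Wins c k t) + #(B.filter fun c => ∃ k, Wins c k t) := by
      intro t
      rw [← sum_filter, ← sum_filter, sum_const, sum_const, smul_eq_mul, smul_eq_mul, mul_comm,
        mul_one]
    have g : ∀ t : Strat N, (∀ q, depth t ≤ q → ∀ A B : Finset (Fin N), (∀ c ∈ A, ∀ k, Wins c k t) →
        (∀ c ∈ B, ∃ k, Wins c k t) → A ⊆ B → 2 * q * #A + #B ≤ 3 ^ q) → depth t ≤ q →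
        ∑ c ∈ B, (if ∀ k, Wins c k t then 2 * q else 0) +
          ∑ c ∈ B, (if ∃ k, Wins c k t then 1 else 0) ≤ 3 ^ q := fun t h hq =>
      (f t).trans_le (h q hq _ _ (fun c hc => (mem_filter.1 hc).2) (fun c hc => (mem_filter.1 hc).2)
        (monotone_filter_right _ fun c _ h => ⟨0, h 0⟩))
    have e : 2 * (q + 1) * #A + #B = ∑ c ∈ B, ((if c ∈ A then 2 * (q + 1) else 0) + 1) := by
      rw [sum_add_distrib, ← sum_filter, filter_mem_eq_inter, inter_eq_right.2 hAB]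
      simp [mul_comm]
    rw [e, pow_succ, mul_comm _ 3, show 3 * 3 ^ q = 3 ^ q + 3 ^ q + 3 ^ q by ring]
    refine le_trans ?_ (add_le_add (add_le_add (g l il (by omega)) (g r ir (by omega)))
      (g b ib (by omega)))
    simp only [← sum_add_distrib]
    refine sum_le_sum fun c hc => ?_
    by_cases h : c ∈ A
    · have h1 := hA c h
      have h2 := h1 s
      simp only [Wins, if_true] at h1 h2
      rw [if_pos h, if_pos (c := ∃ k, Wins c k l) ⟨s, h2.1⟩, if_pos (c := ∃ k, Wins c k r) ⟨s, h2.2.1⟩,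
        if_pos (c := ∃ k, Wins c k b) ⟨s, h2.2.2⟩]
      by_cases c1 : c ∈ L
      · rw [if_pos (c := ∀ k, Wins c k l) fun k => by have := h1 k; split_ifs at this <;> tauto]
        omega
      · by_cases c2 : c ∈ R
        · rw [if_pos (c := ∀ k, Wins c k r) fun k => by have := h1 k; split_ifs at this <;> tauto]
          omega
        · rw [if_pos (c := ∀ k, Wins c k b) fun k => by have := h1 k; split_ifs at this <;> tauto]
          omega
    · obtain ⟨k, hk⟩ := hB c hc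
      rw [if_neg h]
      have : (∃ k, Wins c k l) ∨ (∃ k, Wins c k r) ∨ ∃ k, Wins c k b := by
        rw [Wins] at hk
        split_ifs at hk
        exacts [.inl ⟨k, hk.1⟩, .inl ⟨k, hk⟩, .inr (.inl ⟨k, hk⟩), .inr (.inr ⟨k, hk⟩)]
      rcases this with h | h | h <;> rw [if_pos h] <;> omega

lemma pick (F Z : Finset (Fin N)) (hd : Disjoint F Z) (a b : ℕ)
    (h : a ≤ #F ∧ b ≤ #Z ∨ a + b ≤ #Z) : ∃ X Y, (X ⊆ F ∨ X ⊆ Z) ∧ Y ⊆ Z ∧ Disjoint X Y ∧
      #X = a ∧ #Y = b ∧ #(F \ X) + #(Z \ (X ∪ Y)) + a + b = #F + #Z := by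
  rcases h with h | h
  · obtain ⟨X, h1, rfl⟩ := exists_subset_card_eq h.1
    obtain ⟨Y, h2, rfl⟩ := exists_subset_card_eq h.2
    refine ⟨X, Y, .inl h1, h2, hd.mono h1 h2, rfl, rfl, ?_⟩
    rw [show Z \ (X ∪ Y) = Z \ Y by
      ext c
      have := @h1 c
      have : c ∈ F → c ∉ Z := fun h => disjoint_left.1 hd h
      simp only [mem_sdiff, mem_union]
      tauto]
    have := card_sdiff_add_card_eq_card h1
    have := card_sdiff_add_card_eq_card h2
    omega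
  · obtain ⟨X, Y, h1, h2, h3, h4, h5, h6⟩ := two Z a b h
    refine ⟨X, Y, .inr h1, h2, h3, h4, h5, ?_⟩
    rw [(hd.mono_right h1).sdiff_eq_left]
    omega

lemma term2 [NeZero N] (r : ℕ) {k : Fin 3} (A : Finset (Fin N)) (h0 : 1 ≤ #A) (m : ℕ) :
    ∀ i j, i ≠ j → i ≠ k → j ≠ k → ∀ F Z : Finset (Fin N), Disjoint A Z → Disjoint A F →
    Disjoint F Z → #F + #Z + 2 * (m + 1) * #A + 3 ^ r ≤ 3 ^ (r + m + 1) →
    Win (r + m + 1) fun c s => c ∈ A ∧ s = k ∨ c ∈ F ∧ s = i ∨ c ∈ Z ∧ s = j := by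
  induction m with
  | zero =>
    intro i j ij ik jk F Z d1 d2 d3 h
    wlog hle : #F ≤ #Z generalizing i j F Z
    · exact (this j i ij.symm jk ik Z F d2 d1 d3.symm (by omega) (by omega)).mono le_rfl
        fun c s h => by tauto
    rw [add_zero] at h ⊢
    exact term ij ik jk A F Z d1 d2 d3 h0 (by omega) (by omega)
  | succ m ih =>
    intro i j ij ik jk F Z d1 d2 d3 h
    wlog hle : #F ≤ #Z generalizing i j F Z
    · exact (this j i ij.symm jk ik Z F d2 d1 d3.symm (by omega) (by omega)).mono le_rfl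
        fun c s h => by tauto
    rw [← add_assoc r m 1] at h ⊢
    rw [pow_succ, mul_add 2, add_mul] at h
    have a1 : 2 * 1 * #A ≤ 2 * (m + 1) * #A := Nat.mul_le_mul_right _ (by omega)
    obtain ⟨P, hP⟩ : ∃ P, P + #A = 3 ^ (r + m + 1) :=
      ⟨3 ^ (r + m + 1) - #A, Nat.sub_add_cancel (by nlinarith [Nat.zero_le (3 ^ r)])⟩
    by_cases hc : P ≤ #F ∧ P ≤ #Z ∨ P + P ≤ #Z
    · obtain ⟨X, Y, x1, y1, d, x2, y2, e⟩ := pick F Z d3 P P hc
      have k3 := ih i j ij ik jk (F \ X) (Z \ (X ∪ Y)) (d1.mono_right sdiff_subset)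
        (d2.mono_right sdiff_subset) (d3.mono sdiff_subset sdiff_subset) (by omega)
      have k2 := good2 ik ij A Y (q := r + m + 1) (by omega)
      have k1 : Win (r + m + 1) fun c s => c ∈ A ∧ s = k ∨ c ∈ X ∧ (c ∈ F ∧ s = i ∨ c ∈ Z ∧ s = j) := by
        rw [disjoint_left] at d3
        rcases x1 with x1 | x1
        · exact (good2 jk ij.symm A X (by omega)).mono le_rfl fun c s h => by
            have := @x1 c; have := @d3 c; tauto
        · exact (good2 ik ij A X (by omega)).mono le_rfl fun c s h => by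
            have := @x1 c; have := @d3 c; tauto
      rw [disjoint_left] at d1 d2 d3
      refine step k _ _ d (x2.trans y2.symm) (k1.mono le_rfl fun c s h => ?_)
        (k2.mono le_rfl fun c s h => ?_) (k3.mono le_rfl fun c s h => ?_)
      all_goals
        have := @y1 c
        have := @d1 c
        have := @d2 c
        have := @d3 c
        simp only [mem_union, mem_sdiff] at *
        grind
    · exact term ij ik jk A F Z d1 d2 d3 h0 (by omega) (by omega)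

lemma hold [NeZero N] (r : ℕ) {i j k : Fin 3} (ij : i ≠ j) (ik : i ≠ k) (jk : j ≠ k)
    (A : Finset (Fin N)) (ha : #A ≤ 3 ^ r)
    (H : ∀ Y : Finset (Fin N), Disjoint A Y → #Y ≤ 1 → Win r fun c s => c ∈ A ∨ c ∈ Y ∧ s = j)
    (m : ℕ) : ∀ Y : Finset (Fin N), Disjoint A Y → #Y + 2 * m * #A + 3 ^ r ≤ 3 ^ (r + m) + 1 →
    Win (r + m) fun c s => c ∈ A ∨ c ∈ Y ∧ s = j := by
  induction m with
  | zero => exact fun Y d h => H Y d (by rw [add_zero] at h; omega)
  | succ m ih =>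
    intro Y d h
    rw [← add_assoc] at h ⊢
    rw [pow_succ, mul_add 2, add_mul] at h
    have p : 3 ^ r ≤ 3 ^ (r + m) := Nat.pow_le_pow_right (by omega) (by omega)
    obtain ⟨P, hP⟩ : ∃ P, P + #A = 3 ^ (r + m) := ⟨_, Nat.sub_add_cancel (ha.trans p)⟩
    obtain ⟨Y1, Y2, b1, b2, b3, b4, b5, b6⟩ := two Y (min (#Y / 2) P) (min (#Y / 2) P) (by omega)
    have k1 := good2 ik ij A Y1 (q := r + m) (by omega)
    have k2 := good2 ik ij A Y2 (q := r + m) (by omega)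
    have k3 : Win (r + m) fun c s => c ∈ A ∨ c ∈ Y \ (Y1 ∪ Y2) ∧ s = j := by
      by_cases hc : P ≤ #Y / 2
      · exact ih _ (d.mono_right sdiff_subset) (by omega)
      · exact (H _ (d.mono_right sdiff_subset) (by omega)).mono (by omega) fun _ _ h => h
    rw [disjoint_left] at d
    refine step k _ _ b3 (b4.trans b5.symm) (k1.mono le_rfl fun c s h => ?_)
      (k2.mono le_rfl fun c s h => ?_) (k3.mono le_rfl fun c s h => ?_)
    all_goals
      have := @b1 c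
      have := @b2 c
      have := @d c
      simp only [mem_union, mem_sdiff] at *
      grind

lemma start [NeZero N] (r m P : ℕ) {i j k : Fin 3} (ij : i ≠ j) (ik : i ≠ k) (jk : j ≠ k)
    (A F Z : Finset (Fin N)) (d1 : Disjoint A Z) (d2 : Disjoint A F) (d3 : Disjoint F Z)
    (h0 : 1 ≤ #A) (ha : #A ≤ 3 ^ r) (hle : #F ≤ #Z)
    (H : ∀ Y : Finset (Fin N), Disjoint A Y → #Y ≤ 1 → Win r fun c s => c ∈ A ∨ c ∈ Y ∧ s = j)
    (hP : P + 2 * (m + 1) * #A + 3 ^ r ≤ 3 ^ (r + m + 1)) (h : #F + #Z + 1 ≤ 3 * P) :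
    Win (r + m + 1 + 1) fun c s => c ∈ A ∨ c ∈ F ∧ s = i ∨ c ∈ Z ∧ s = j := by
  obtain ⟨Y, y1, y2⟩ := exists_subset_card_eq (s := Z)
    (n := min #Z P - (#F + #Z - min #Z P) % 2) (by omega)
  have u : #(F ∪ Z \ Y) = #F + (#Z - #Y) := by
    rw [card_union_of_disjoint (d3.mono_right sdiff_subset), card_sdiff_of_subset y1]
  obtain ⟨X1, X2, b1, b2, b3, b4, b5, b6⟩ :=
    two (F ∪ Z \ Y) (#(F ∪ Z \ Y) / 2) (#(F ∪ Z \ Y) / 2) (by omega)
  have c7 : (F ∪ Z \ Y) \ (X1 ∪ X2) = ∅ := card_eq_zero.1 (by omega)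
  have t : ∀ X : Finset (Fin N), #X ≤ P → Win (r + m + 1)
      fun c s => c ∈ A ∧ s = k ∨ c ∈ F ∩ X ∧ s = i ∨ c ∈ Z ∩ X ∧ s = j := by
    intro X hX
    have dd := d3.mono (inter_subset_left (s₂ := X)) (inter_subset_left (s₂ := X))
    refine term2 r A h0 m i j ij ik jk _ _ (d1.mono_right inter_subset_left)
      (d2.mono_right inter_subset_left) dd ?_
    have := card_le_card (union_subset (inter_subset_right (s₁ := F) (s₂ := X))
      (inter_subset_right (s₁ := Z)))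
    rw [card_union_of_disjoint dd] at this
    omega
  have k3 := hold r ij ik jk A ha H (m + 1) Y (d1.mono_right y1) (by rw [← add_assoc]; omega)
  rw [disjoint_left] at d1 d2 d3
  refine step k _ _ b3 (b4.trans b5.symm) ((t X1 (by omega)).mono le_rfl fun c s h => ?_)
    ((t X2 (by omega)).mono le_rfl fun c s h => ?_) (k3.mono le_rfl fun c s h => ?_)
  all_goals
    have := Finset.ext_iff.1 c7 c
    have := @b1 c
    have := @b2 c
    have := @d1 c
    have := @d2 c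
    simp only [mem_union, mem_sdiff, mem_inter, notMem_empty] at *
    grind

lemma gstep {Q D R : ℕ} {i j k : Fin 3} (ij : i ≠ j) (ik : i ≠ k) (jk : j ≠ k)
    (A F Z : Finset (Fin N)) (d1 : Disjoint A Z) (d2 : Disjoint A F) (d3 : Disjoint F Z)
    (a0 : 0 < #A) (hle : #F ≤ #Z) (hD : 1 ≤ D) (hI : D * #A + #F + #Z + 3 * D ≤ 3 * R)
    (key : ∀ A1 Z1 : Finset (Fin N), A1 ⊆ A → Disjoint A Z1 → D * #A1 + #Z1 ≤ R →
      ∀ i j, i ≠ j → i ≠ k → j ≠ k →
      Win Q fun c s => c ∈ A1 ∨ c ∈ A \ A1 ∧ s = k ∨ c ∈ Z1 ∧ s = j)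
    (hT : ∀ F' Z' : Finset (Fin N), F' ⊆ F → Z' ⊆ Z → #F' + #Z' ≤ R → D * #A ≤ R →
      Win Q fun c s => c ∈ A ∧ s = k ∨ c ∈ F' ∧ s = i ∨ c ∈ Z' ∧ s = j) :
    Win (Q + 1) fun c s => c ∈ A ∨ c ∈ F ∧ s = i ∨ c ∈ Z ∧ s = j := by
  by_cases hc : #Z + 2 * D ≤ 2 * R ∧ #F + D ≤ R
  · exact reg1 ij ik jk A F Z d1 d2 d3 a0 hI key hc
  obtain ⟨A1, A2, b1, b2, b3, b4, b5, b6⟩ := two A (#A / 2) (#A - #A / 2) (by omega)
  have c7 : A \ (A1 ∪ A2) = ∅ := card_eq_zero.1 (by omega)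
  have u0 : D * 1 ≤ D * #A2 := Nat.mul_le_mul_left _ (by omega)
  have u1 : D * #A2 ≤ D * #A := Nat.mul_le_mul_left _ (by omega)
  have u2 : D * (#A1 + #A % 2) ≤ D * #A2 := Nat.mul_le_mul_left _ (by omega)
  have u3 : D * (2 * #A2) ≤ D * (#A + 1) := Nat.mul_le_mul_left _ (by omega)
  have u4 : #A % 2 ≤ D * (#A % 2) := Nat.le_mul_of_pos_left _ hD
  rw [mul_add] at u2
  rw [mul_left_comm, mul_add] at u3
  obtain ⟨X, Y, x1, y1, d, x2, y2, e⟩ := pick F Z d3 (R - D * #A2 + #A % 2) (R - D * #A2)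
    (by omega)
  have dx : Disjoint A X := x1.elim d2.mono_right d1.mono_right
  have dy := d1.mono_right y1
  have k1 : Win Q fun c s => c ∈ A1 ∨ c ∈ A \ A1 ∧ s = k ∨
      c ∈ X ∧ (c ∈ F ∧ s = i ∨ c ∈ Z ∧ s = j) := by
    rw [disjoint_left] at d3
    rcases x1 with x1 | x1
    · exact (key A1 X b1 dx (by omega) j i ij.symm jk ik).mono le_rfl fun c s h => by
        have := @x1 c; have := @d3 c; tauto
    · exact (key A1 X b1 dx (by omega) i j ij ik jk).mono le_rfl fun c s h => by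
        have := @x1 c; have := @d3 c; tauto
  have k2 := key A2 Y b2 dy (by omega) i j ij ik jk
  have k3 := hT (F \ X) (Z \ (X ∪ Y)) sdiff_subset sdiff_subset (by omega) (by omega)
  have dd : Disjoint (A1 ∪ X) (A2 ∪ Y) := by
    simp only [disjoint_union_left, disjoint_union_right]
    exact ⟨⟨b3, (dx.mono_left b2).symm⟩, dy.mono_left b1, d⟩
  have ee : #(A1 ∪ X) = #(A2 ∪ Y) := by
    rw [card_union_of_disjoint (dx.mono_left b1), card_union_of_disjoint (dy.mono_left b2)]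
    omega
  rw [disjoint_left] at d1 d2 d3 dx
  refine step k _ _ dd ee (k1.mono le_rfl fun c s h => ?_) (k2.mono le_rfl fun c s h => ?_)
    (k3.mono le_rfl fun c s h => ?_)
  all_goals
    have := Finset.ext_iff.1 c7 c
    have := @b1 c
    have := @b2 c
    have := @y1 c
    have := @d1 c
    have := @d2 c
    have := @d3 c
    have := @dx c
    simp only [mem_union, mem_sdiff, notMem_empty] at *
    grind

lemma ar0 (m a y U S W : ℕ) (a0 : 0 < a) (hU : 1 ≤ U) (p1 : (2 * m + 6) * 81 * U ≤ 27 * S)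
    (hW : W = 27 * U * S)
    (h : 2 * ((2 * m + 6) * 81 * U) * a + y + 9 * (27 * S) ≤ 3 * W + 3 * ((2 * m + 6) * 81 * U)) :
    2 * ((2 * (2 * m + 5) + 1) * a + 1) ≤ 3 * S + 3 ∧ a ≤ 27 * S ∧
      2 * (m + 1) * a + 27 * S ≤ W ∧ y + 1 ≤ 3 * (W - (2 * (m + 1) * a + 27 * S)) := by
  have u1 : 2 * (2 * m + 6) * a ≤ S := by
    refine Nat.le_of_mul_le_mul_left (c := 81 * U) ?_ (by omega)
    nlinarith
  have u2 : 2 * ((2 * m + 6) * 81 * 1) * a ≤ 2 * ((2 * m + 6) * 81 * U) * a := by gcongr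
  have u3 : 3 * (2 * (m + 1) * a) + 1 ≤ 2 * ((2 * m + 6) * 81 * 1) * a := by nlinarith
  exact ⟨by nlinarith, by nlinarith, by omega, by omega⟩

lemma ar1 (m a d R U T W : ℕ) (hU : 1 ≤ U) (p3 : d + 1 ≤ T) (p4 : 2 * (m + 1) * U + 1 ≤ d + 1)
    (hW : W = U * (3 * T)) (hR : R + a + 9 * T = W + 3 * (d + 1)) (h4 : (2 * d + 1) * a ≤ R) :
    R + 2 * (m + 1) * a + 3 * T ≤ W := by
  have u : 2 * (m + 1) * a ≤ 3 * T := by
    refine Nat.le_of_mul_le_mul_left (c := U) ?_ hU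
    nlinarith [Nat.mul_le_mul_right a p4]
  omega

lemma ar2 (a y d T W : ℕ) (h : 2 * (d + 1 + 1) * a + y + 9 * (3 * T) ≤ 3 * W + 3 * (d + 1 + 1)) :
    ∃ R, R + a + 9 * T = W + 3 * (d + 1) ∧ (2 * d + 1) * a + y + 3 * (2 * d + 1) ≤ 3 * R := by
  have : 2 * (d + 1 + 1) * a = (2 * d + 1) * a + 3 * a := by ring
  exact ⟨W + 3 * (d + 1) - (a + 9 * T), by omega, by omega⟩

theorem tight [NeZero N] (m q : ℕ) : ∀ (i j k : Fin 3), i ≠ j → i ≠ k → j ≠ k →
    ∀ A F Z : Finset (Fin N), Disjoint A Z → Disjoint A F → Disjoint F Z →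
    2 * ((2 * m + 6) * 81 * 3 ^ (m + 1) + q) * #A + (#F + #Z) + 9 * (3 ^ (2 * m + 8) * 3 ^ q) ≤
      3 ^ (q + (3 * m + 10)) + 3 * ((2 * m + 6) * 81 * 3 ^ (m + 1) + q) →
    Win (q + (3 * m + 10)) fun c s => c ∈ A ∨ c ∈ F ∧ s = i ∨ c ∈ Z ∧ s = j := by
  have p0 : ∀ q, q + 1 ≤ 3 ^ q := fun q => Nat.lt_pow_self (by omega)
  have p1 : (2 * m + 6) * 81 * 3 ^ (m + 1) ≤ 3 ^ (2 * m + 8) := by
    rw [show 2 * m + 8 = m + 7 + (m + 1) by ring, pow_add _ (m + 7), pow_add _ m 7]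
    exact Nat.mul_le_mul_right _ (by have := p0 m; omega)
  have p2 : ∀ q, (2 * m + 6) * 81 * 3 ^ (m + 1) + q ≤ 3 ^ (2 * m + 8) * 3 ^ q := fun q => by
    refine le_trans ?_ (Nat.mul_le_mul_left (3 ^ (2 * m + 8)) (p0 q))
    rw [mul_add_one, add_comm]
    exact add_le_add (Nat.le_mul_of_pos_left _ (by positivity)) p1
  have a0' : ∀ q (i j k : Fin 3), i ≠ k → j ≠ k → ∀ A F Z : Finset (Fin N), #A = 0 →
      #F + #Z ≤ 3 ^ q → Win q fun c s => c ∈ A ∨ c ∈ F ∧ s = i ∨ c ∈ Z ∧ s = j :=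
    fun q i j k ik jk A F Z a0 h => (good2 ik.symm jk.symm F Z h).mono le_rfl fun c s h => by
      simpa [card_eq_zero.1 a0] using h
  have hU : 1 ≤ 3 ^ (m + 1) := Nat.one_le_pow _ _ (by omega)
  induction q with
  | zero =>
    intro i j k ij ik jk A F Z d1 d2 d3 h
    wlog hle : #F ≤ #Z generalizing i j F Z
    · exact (this j i ij.symm jk ik Z F d2 d1 d3.symm (add_comm #F _ ▸ h) (not_le.1 hle).le).mono le_rfl
        fun c s h => h.imp_right Or.symm
    rw [add_zero, pow_zero, mul_one] at h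
    rcases Nat.eq_zero_or_pos #A with a0 | a0
    · refine a0' _ i j k ik jk A F Z a0 ?_
      generalize 3 ^ (0 + (3 * m + 10)) = W at h
      omega
    have e3 : 3 ^ (2 * m + 8) = 27 * 3 ^ (2 * m + 5) := by ring
    rw [show 0 + (3 * m + 10) = 2 * m + 8 + m + 1 + 1 by ring] at h ⊢
    rw [pow_succ _ (2 * m + 8 + m + 1), mul_comm _ 3] at h
    obtain ⟨u1, u2, u3, u4⟩ := ar0 m #A (#F + #Z) _ (3 ^ (2 * m + 5)) (3 ^ (2 * m + 8 + m + 1)) a0 hU
      (e3 ▸ p1) (by ring) (e3 ▸ h)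
    rw [← e3] at u2 u3 u4
    refine start (2 * m + 8) m _ ij ik jk A F Z d1 d2 d3 a0 u2 hle (fun Y d hY => ?_) ?_ u4
    · refine (main (2 * m + 5) i j k ij ik jk A ∅ Y d (by simp) (by simp) ?_).mono le_rfl
        fun c s h => by tauto
      rw [card_empty]
      generalize 3 ^ (2 * m + 5) = S at u1
      omega
    · rw [add_assoc, Nat.sub_add_cancel u3]
  | succ q ih =>
    intro i j k ij ik jk A F Z d1 d2 d3 h
    wlog hle : #F ≤ #Z generalizing i j F Z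
    · exact (this j i ij.symm jk ik Z F d2 d1 d3.symm (add_comm #F _ ▸ h) (not_le.1 hle).le).mono le_rfl
        fun c s h => h.imp_right Or.symm
    rcases Nat.eq_zero_or_pos #A with a0 | a0
    · refine a0' _ i j k ik jk A F Z a0 ?_
      have := p2 (q + 1)
      generalize 3 ^ (q + 1 + (3 * m + 10)) = W at h
      generalize 3 ^ (2 * m + 8) * 3 ^ (q + 1) = T at h this
      omega
    have e1 : 3 ^ (q + 1 + (3 * m + 10)) = 3 * 3 ^ (q + (3 * m + 10)) := by ring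
    have e2 : 3 ^ (q + (3 * m + 10)) = 3 ^ (m + 1) * (3 * (3 ^ (2 * m + 8) * 3 ^ q)) := by ring
    have e3 : 3 ^ (2 * m + 8) * 3 ^ (q + 1) = 3 * (3 ^ (2 * m + 8) * 3 ^ q) := by ring
    have p3 := p2 q
    have p4 : 2 * (m + 1) * 3 ^ (m + 1) + 1 ≤ (2 * m + 6) * 81 * 3 ^ (m + 1) + q := by
      generalize 3 ^ (m + 1) = U at hU
      nlinarith
    rw [e1, e3, ← add_assoc _ q] at h
    obtain ⟨d, hd⟩ : ∃ d, (2 * m + 6) * 81 * 3 ^ (m + 1) + q = d + 1 :=
      ⟨_, (Nat.sub_add_cancel (le_trans (Nat.le_add_left _ _) p4)).symm⟩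
    rw [hd] at h ih p3 p4
    obtain ⟨R, hR, hI⟩ := ar2 _ _ _ _ _ h
    rw [add_right_comm]
    refine gstep (D := 2 * d + 1) (R := R) ij ik jk A F Z d1 d2 d3 a0 hle (Nat.le_add_left _ _)
      (by rwa [add_assoc _ #F]) (fun A1 Z1 h1 h2 h3 i j ij ik jk => ?_) fun F' Z' h1 h2 h3 h4 => ?_
    · refine ih k j i jk.symm ik.symm ij.symm _ _ _ (h2.mono_left h1) disjoint_sdiff
        (h2.mono_left sdiff_subset) ?_
      have := card_sdiff_add_card_eq_card h1
      rw [← hR, show 2 * (d + 1) * #A1 = (2 * d + 1) * #A1 + #A1 by ring]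
      omega
    · have u := ar1 m _ d R _ _ _ hU p3 p4 e2 hR h4
      rw [show q + (3 * m + 10) = q + (2 * m + 9) + m + 1 by ring] at u ⊢
      refine term2 _ A a0 m i j ij ik jk F' Z' (d1.mono_right h2) (d2.mono_right h1)
        (d3.mono h1 h2) (le_trans ?_ u)
      rw [show 3 ^ (q + (2 * m + 9)) = 3 * (3 ^ (2 * m + 8) * 3 ^ q) by ring]
      gcongr

end Pool.Agent.H.MP_a3b474_co
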